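import Pool.Agent.Lib.MP_743d1e_nt.Kae

/-!
# Integrality of the symbols on the curves `∏ f_i(x) * ∏ G_j(x,y) * H(x,y) = 1`, `H` arbitrary

`f_i` monic in `ℤ[X]`, `G_j` monic in `ℤ[X][Y]`, `H` arbitrary in `ℤ[X][Y]`.
-/

set_option autoImplicit false

namespace MP743d1e.TInt

open scoped BigOperators
open Polynomial MP743d1e.Integ

variable {K : Type} [Field K]

section Val

variable {v : DVal K}

lemma nn_of_pos {f : K} (h : Pos v f) : NN v f := by
  rcases h with h | ⟨u, hu, h⟩
  · exact Or.inl h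
  · exact Or.inr ⟨u, hu, by omega⟩

lemma pos_zero : Pos v (0 : K) := Or.inl rfl

lemma not_pos_one : ¬ Pos v (1 : K) := by
  intro h
  have h1 : Pos v ((1 : Kˣ) : K) := by simpa using h
  rw [pos_unit, v.ord_one] at h1
  omega

lemma nn_pow {f : K} (hf : NN v f) (m : ℕ) : NN v (f ^ m) := by
  induction m with
  | zero => rw [pow_zero]; exact nn_one
  | succ m ih => rw [pow_succ]; exact nn_mul ih hf

lemma nn_sum {ι : Type} (s : Finset ι) (f : ι → K) (h : ∀ i ∈ s, NN v (f i)) :
    NN v (∑ i ∈ s, f i) := by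
  classical
  induction s using Finset.induction_on with
  | empty => simpa using nn_zero
  | insert a s ha ih =>
    rw [Finset.sum_insert ha]
    exact nn_add (h a (Finset.mem_insert_self a s))
      (ih fun i hi => h i (Finset.mem_insert_of_mem hi))

lemma pos_add {f g : K} (hf : Pos v f) (hg : Pos v g) : Pos v (f + g) := by
  rcases hf with rfl | ⟨u, rfl, hu⟩
  · rwa [zero_add]
  rcases hg with rfl | ⟨w, rfl, hw⟩
  · rw [add_zero]; exact Or.inr ⟨u, rfl, hu⟩
  by_cases h : (u : K) + (w : K) = 0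
  · exact Or.inl h
  refine Or.inr ⟨Units.mk0 _ h, rfl, ?_⟩
  have := v.ord_add u w (Units.mk0 _ h) rfl
  omega

lemma pos_sum {ι : Type} (s : Finset ι) (f : ι → K) (h : ∀ i ∈ s, Pos v (f i)) :
    Pos v (∑ i ∈ s, f i) := by
  classical
  induction s using Finset.induction_on with
  | empty => simpa using pos_zero
  | insert a s ha ih =>
    rw [Finset.sum_insert ha]
    exact pos_add (h a (Finset.mem_insert_self a s))
      (ih fun i hi => h i (Finset.mem_insert_of_mem hi))

/-- A polynomial with integral coefficients takes an integral value at an integral element. -/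
lemma nn_eval {S : Type} [CommRing S] (φ : S →+* K) (hφ : ∀ s, NN v (φ s)) {y : K} (hy : NN v y)
    (p : S[X]) : NN v (p.eval₂ φ y) := by
  rw [eval₂_eq_sum_range]
  exact nn_sum _ _ fun i _ => nn_mul (hφ _) (nn_pow hy _)

/-- A monic polynomial with integral coefficients at an element that is not integral: the leading term
dominates. -/
lemma pos_eval {S : Type} [CommRing S] (φ : S →+* K) (hφ : ∀ s, NN v (φ s)) {y : K}
    (hy : ¬ NN v y) (p : S[X]) (hp : p.Monic) :
    Pos v (p.eval₂ φ y / y ^ p.natDegree - 1) := by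
  have hy0 : y ≠ 0 := fun h0 => hy (Or.inl h0)
  have hinv := pos_inv_of_not_nn hy
  have e : p.eval₂ φ y / y ^ p.natDegree - 1 =
      ∑ i ∈ Finset.range p.natDegree, φ (p.coeff i) * y ^ i / y ^ p.natDegree := by
    rw [eval₂_eq_sum_range, Finset.sum_range_succ, hp.coeff_natDegree, map_one, one_mul, add_div,
      div_self (pow_ne_zero _ hy0), add_sub_cancel_right, Finset.sum_div]
  rw [e]
  apply pos_sum
  intro i hi
  have hi' : i < p.natDegree := Finset.mem_range.mp hi
  obtain ⟨k, hk⟩ : ∃ k, p.natDegree = i + (k + 1) := ⟨p.natDegree - i - 1, by omega⟩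
  have e1 : φ (p.coeff i) * y ^ i / y ^ p.natDegree = y⁻¹ * (φ (p.coeff i) * (y⁻¹) ^ k) := by
    rw [hk, pow_add, pow_succ, inv_pow]
    field_simp
  rw [e1]
  exact pos_mul_nn hinv (nn_mul (hφ _) (nn_pow (nn_of_pos hinv) _))

/-- The quotient `p(y)^{deg q} / q(y)^{deg p}` of two monic polynomials at a non integral element is a
one-unit. -/
lemma isOne_ratio {S : Type} [CommRing S] (φ : S →+* K) (hφ : ∀ s, NN v (φ s)) {y : K}
    (hy : ¬ NN v y) (p q : S[X]) (hp : p.Monic) (hq : q.Monic) (a b : ℕ)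
    (hab : p.natDegree * a = q.natDegree * b) (u : Kˣ)
    (hu : (u : K) * (q.eval₂ φ y) ^ b = (p.eval₂ φ y) ^ a) : v.IsOne u := by
  have hy0 : y ≠ 0 := fun h0 => hy (Or.inl h0)
  have h1 := pos_eval φ hφ hy p hp
  have h2 := pos_eval φ hφ hy q hq
  have hne : ∀ r : S[X], r.Monic → r.eval₂ φ y ≠ 0 := by
    intro r hr h0
    have h3 := pos_eval φ hφ hy r hr
    rw [h0, zero_div, zero_sub] at h3
    apply not_pos_one (v := v)
    have := pos_mul_nn h3 (nn_neg nn_one)
    simpa using this
  have hyn : ∀ k : ℕ, y ^ k ≠ 0 := fun k => pow_ne_zero _ hy0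
  have hpu : v.IsOne (Units.mk0 (p.eval₂ φ y / y ^ p.natDegree) (div_ne_zero (hne p hp) (hyn _))) :=
    isOne_of_pos (by simpa using h1)
  have hqu : v.IsOne (Units.mk0 (q.eval₂ φ y / y ^ q.natDegree) (div_ne_zero (hne q hq) (hyn _))) :=
    isOne_of_pos (by simpa using h2)
  rw [← DVal.mem_U1] at hpu hqu ⊢
  have e : u = (Units.mk0 (p.eval₂ φ y / y ^ p.natDegree) (div_ne_zero (hne p hp) (hyn _))) ^ a *
      ((Units.mk0 (q.eval₂ φ y / y ^ q.natDegree) (div_ne_zero (hne q hq) (hyn _))) ^ b)⁻¹ := by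
    apply Units.ext
    have hq0 := hne q hq
    have hu' : (u : K) = (p.eval₂ φ y) ^ a / (q.eval₂ φ y) ^ b := by
      rw [← hu]; field_simp
    rw [hu']
    simp only [Units.val_mul, Units.val_pow_eq_pow_val, Units.val_mk0, Units.val_inv_eq_inv_val,
      div_pow, ← pow_mul, hab]
    have := hyn (q.natDegree * b)
    field_simp
  rw [e]
  exact Subgroup.mul_mem _ (Subgroup.pow_mem _ hpu _) (Subgroup.inv_mem _ (Subgroup.pow_mem _ hqu _))

end Val

/-- Evaluation of a polynomial with integral coefficients in two variables (outer variable `y`, inner variable `x`). -/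
noncomputable def evZ (x y : K) (P : ℤ[X][X]) : K :=
  P.eval₂ ((Polynomial.aeval x : ℤ[X] →ₐ[ℤ] K) : ℤ[X] →+* K) y

/-- The equation of the curve. -/
structure OnCurve {ι κ : Type} [Fintype ι] [Fintype κ] (f : ι → ℤ[X]) (G : κ → ℤ[X][X])
    (H : ℤ[X][X]) (x y : K) : Prop where
  eqn : (∏ i, Polynomial.aeval x (f i)) * (∏ j, evZ x y (G j)) * evZ x y H = 1

section Main

variable {ι κ : Type} [Fintype ι] [Fintype κ] {f : ι → ℤ[X]} {G : κ → ℤ[X][X]} {H : ℤ[X][X]}
  {x y : K}

lemma f_ne (hc : OnCurve f G H x y) (i : ι) : Polynomial.aeval x (f i) ≠ 0 := by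
  intro h0
  have := hc.eqn
  rw [Finset.prod_eq_zero (Finset.mem_univ i) h0, zero_mul, zero_mul] at this
  exact zero_ne_one this

lemma G_ne (hc : OnCurve f G H x y) (j : κ) : evZ x y (G j) ≠ 0 := by
  intro h0
  have := hc.eqn
  rw [Finset.prod_eq_zero (Finset.mem_univ j) h0, mul_zero, zero_mul] at this
  exact zero_ne_one this

variable {v : DVal K}

lemma nn_aeval (hx : NN v x) (p : ℤ[X]) : NN v (Polynomial.aeval x p) := by
  rw [Polynomial.aeval_def]
  exact nn_eval (algebraMap ℤ K) (fun s => by simpa using nn_int (v := v) s) hx p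

lemma nn_evZ (hx : NN v x) (hy : NN v y) (P : ℤ[X][X]) : NN v (evZ x y P) :=
  nn_eval _ (fun s => nn_aeval hx s) hy P

/-- At a place where `x` and `y` are integral the factors are units. -/
lemma ord_f (hc : OnCurve f G H x y) (hx : NN v x) (hy : NN v y) (i : ι) (u : Kˣ)
    (hu : (u : K) = Polynomial.aeval x (f i)) : v.ord u = 0 := by
  classical
  refine ord_zero_of_mul (f := Polynomial.aeval x (f i))
    (g := (∏ i' ∈ Finset.univ.erase i, Polynomial.aeval x (f i')) * (∏ j, evZ x y (G j)) *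
      evZ x y H) (nn_aeval hx _) ?_ ?_ u hu
  · refine nn_mul (nn_mul ?_ ?_) (nn_evZ hx hy _)
    · exact nn_prod _ _ fun i' _ => nn_aeval hx _
    · exact nn_prod _ _ fun j _ => nn_evZ hx hy _
  · have := hc.eqn
    rw [← Finset.mul_prod_erase Finset.univ _ (Finset.mem_univ i)] at this
    linear_combination this

lemma ord_G (hc : OnCurve f G H x y) (hx : NN v x) (hy : NN v y) (j : κ) (w : Kˣ)
    (hw : (w : K) = evZ x y (G j)) : v.ord w = 0 := by
  classical
  refine ord_zero_of_mul (f := evZ x y (G j))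
    (g := (∏ i, Polynomial.aeval x (f i)) * (∏ j' ∈ Finset.univ.erase j, evZ x y (G j')) *
      evZ x y H) (nn_evZ hx hy _) ?_ ?_ w hw
  · refine nn_mul (nn_mul ?_ ?_) (nn_evZ hx hy _)
    · exact nn_prod _ _ fun i' _ => nn_aeval hx _
    · exact nn_prod _ _ fun j _ => nn_evZ hx hy _
  · have := hc.eqn
    rw [← Finset.mul_prod_erase Finset.univ (fun j => evZ x y (G j)) (Finset.mem_univ j)] at this
    linear_combination this

/-- `ord (p ^ a) = 0` transported through `u * q ^ b = p ^ a`. -/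
lemma ord_ratio {p q : K} (u P Q : Kˣ) (hP : (P : K) = p) (hQ : (Q : K) = q) (a b : ℕ)
    (hP0 : v.ord P = 0) (hQ0 : v.ord Q = 0) (hu : (u : K) * q ^ b = p ^ a) : v.ord u = 0 := by
  have e : u * Q ^ b = P ^ a := by
    apply Units.ext
    push_cast
    rw [hP, hQ, hu]
  have h1 := v.ord_mul u (Q ^ b)
  rw [e, v.ord_pow, v.ord_pow, hP0, hQ0] at h1
  simpa using h1.symm

/-- The symbols `{f_i^a / f_{i'}^{a'}, G_j^b / G_l^{b'}}` with quotients of degree zero. -/
theorem tame_fG (hf : ∀ i, (f i).Monic) (hG : ∀ j, (G j).Monic) (hc : OnCurve f G H x y)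
    (i i' : ι) (j l : κ) (a a' b b' : ℕ) (ha : (f i).natDegree * a = (f i').natDegree * a')
    (hb : (G j).natDegree * b = (G l).natDegree * b') (u w : Kˣ)
    (hu : (u : K) * (Polynomial.aeval x (f i')) ^ a' = (Polynomial.aeval x (f i)) ^ a)
    (hw : (w : K) * (evZ x y (G l)) ^ b' = (evZ x y (G j)) ^ b) (v : DVal K) :
    tame v (sym u w) = 0 := by
  rw [tame_sym_eq_zero]
  by_cases hx : NN v x
  · by_cases hy : NN v y
    · apply isOne_tame_units
      · exact ord_ratio u (Units.mk0 _ (f_ne hc i)) (Units.mk0 _ (f_ne hc i')) rfl rfl a a'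
          (ord_f hc hx hy i _ rfl) (ord_f hc hx hy i' _ rfl) hu
      · exact ord_ratio w (Units.mk0 _ (G_ne hc j)) (Units.mk0 _ (G_ne hc l)) rfl rfl b b'
          (ord_G hc hx hy j _ rfl) (ord_G hc hx hy l _ rfl) hw
    · exact isOne_tame_right (isOne_ratio _ (fun s => nn_aeval hx s) hy (G j) (G l) (hG j) (hG l)
        b b' hb w hw)
  · exact isOne_tame_left (isOne_ratio (algebraMap ℤ K)
      (fun s => by simpa using nn_int (v := v) s) hx (f i) (f i') (hf i) (hf i') a a' ha u
      (by simpa only [Polynomial.aeval_def] using hu))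

/-- The symbols `{φ^a / f_{i'}^{a'}, G_j^b / G_l^{b'}}` with quotients of degree zero, if the monic polynomial
`φ(x)` divides `G_j^b - G_l^{b'}`. -/
theorem tame_phi (hf : ∀ i, (f i).Monic) (hG : ∀ j, (G j).Monic) (hc : OnCurve f G H x y)
    (i' : ι) (j l : κ) (φ : ℤ[X]) (hφ : φ.Monic) (a a' b b' : ℕ)
    (ha : φ.natDegree * a = (f i').natDegree * a')
    (hb : (G j).natDegree * b = (G l).natDegree * b') (hdvd : C φ ∣ G j ^ b - G l ^ b') (u w : Kˣ)
    (hu : (u : K) * (Polynomial.aeval x (f i')) ^ a' = (Polynomial.aeval x φ) ^ a)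
    (hw : (w : K) * (evZ x y (G l)) ^ b' = (evZ x y (G j)) ^ b) (v : DVal K) :
    tame v (sym u w) = 0 := by
  rw [tame_sym_eq_zero]
  by_cases hx : NN v x
  · by_cases hy : NN v y
    · have hw0 : v.ord w = 0 := ord_ratio w (Units.mk0 _ (G_ne hc j)) (Units.mk0 _ (G_ne hc l))
        rfl rfl b b' (ord_G hc hx hy j _ rfl) (ord_G hc hx hy l _ rfl) hw
      by_cases hu0 : v.ord u = 0
      · exact isOne_tame_units hu0 hw0
      · apply isOne_tame_right
        apply isOne_of_pos
        -- `φ(x)` has positive order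
        have hφ0 : (Polynomial.aeval x φ) ^ a ≠ 0 := by
          rw [← hu]
          exact mul_ne_zero u.ne_zero (pow_ne_zero _ (f_ne hc i'))
        have ha0 : a ≠ 0 := by
          rintro rfl
          apply hu0
          have e : u * (Units.mk0 _ (f_ne hc i')) ^ a' = 1 := by
            apply Units.ext
            push_cast
            rw [Units.val_mk0, hu, pow_zero]
          have h1 := v.ord_mul u ((Units.mk0 _ (f_ne hc i')) ^ a')
          rw [e, v.ord_one, v.ord_pow, ord_f hc hx hy i' (Units.mk0 _ (f_ne hc i')) rfl] at h1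
          simpa using h1.symm
        have hφ1 : Polynomial.aeval x φ ≠ 0 := fun h0 => hφ0 (by rw [h0, zero_pow ha0])
        have hφp : Pos v (Polynomial.aeval x φ) := by
          refine Or.inr ⟨Units.mk0 _ hφ1, rfl, ?_⟩
          have h2 : 0 ≤ v.ord (Units.mk0 _ hφ1) := by
            rw [← nn_unit]; simpa using nn_aeval (v := v) hx φ
          rcases h2.eq_or_lt with h3 | h3
          · exfalso
            apply hu0
            exact ord_ratio u (Units.mk0 _ hφ1) (Units.mk0 _ (f_ne hc i')) rfl rfl a a' h3.symm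
              (ord_f hc hx hy i' _ rfl) hu
          · omega
        obtain ⟨Q, hQ⟩ := hdvd
        have hev : (evZ x y (G j)) ^ b - (evZ x y (G l)) ^ b' =
            Polynomial.aeval x φ * evZ x y Q := by
          have := congrArg (evZ x y) hQ
          simpa [evZ, eval₂_mul, eval₂_sub, eval₂_pow] using this
        have hGl : v.ord (Units.mk0 _ (G_ne hc l)) = 0 := ord_G hc hx hy l _ rfl
        have hinv : NN v (((evZ x y (G l)) ^ b')⁻¹) := by
          refine Or.inr ⟨((Units.mk0 _ (G_ne hc l)) ^ b')⁻¹, by simp, ?_⟩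
          rw [v.ord_inv, v.ord_pow, hGl]; simp
        have hGl0 : (evZ x y (G l)) ^ b' ≠ 0 := pow_ne_zero _ (G_ne hc l)
        have e : (w : K) - 1 = Polynomial.aeval x φ * (evZ x y Q * ((evZ x y (G l)) ^ b')⁻¹) := by
          rw [← mul_assoc, ← hev, ← hw]
          field_simp
        rw [e]
        exact pos_mul_nn hφp (nn_mul (nn_evZ hx hy _) hinv)
    · exact isOne_tame_right (isOne_ratio _ (fun s => nn_aeval hx s) hy (G j) (G l) (hG j) (hG l)
        b b' hb w hw)
  · exact isOne_tame_left (isOne_ratio (algebraMap ℤ K)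
      (fun s => by simpa using nn_int (v := v) s) hx φ (f i') hφ (hf i') a a' ha u
      (by simpa only [Polynomial.aeval_def] using hu))

end Main

end MP743d1e.TInt
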